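import Pool.Agent.Run7.h245.DI.Iface

/-! Pieces QS and MCC of project DI (helper245): the numbers of Poonen and Rains (q-series) and the
convergence of the Markov chain. -/

set_option autoImplicit false

namespace Pool.Agent.Run7.h799.DI

open Pool.Agent.Run7.h245.DI

/-- geometric bound from the recursion -/
theorem rec_bound (u : ℕ → ℝ) (h0 : ∀ d, 0 < u d)
    (hr : ∀ d, u (d + 1) * ((2 : ℝ) ^ (d + 1) - 1) = 2 * u d) (d : ℕ) :
    u d ≤ 17 * (2 / 7) ^ d * u 0 := by
  have h1 : u 1 = 2 * u 0 := by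
    have := hr 0
    norm_num at this
    linarith
  have h2 : u 2 = 4 / 3 * u 0 := by
    have := hr 1
    norm_num at this
    linarith
  have hpos := h0 0
  rcases d with _ | _ | d
  · norm_num
    linarith
  · norm_num
    rw [h1]
    linarith
  · induction d with
    | zero =>
      norm_num
      rw [h2]
      linarith
    | succ d ih =>
      have e := hr (d + 2)
      have hp : (8 : ℝ) ≤ 2 ^ (d + 2 + 1) := by
        calc (8 : ℝ) = 2 ^ 3 := by norm_num
          _ ≤ 2 ^ (d + 2 + 1) := pow_le_pow_right₀ (by norm_num) (by omega)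
      have hu := h0 (d + 2 + 1)
      have h7 : u (d + 2 + 1) * 7 ≤ 2 * u (d + 2) := by nlinarith
      have ih' : u (d + 2) ≤ 17 * (2 / 7) ^ (d + 2) * u 0 := ih
      have : u (d + 2 + 1) ≤ 17 * (2 / 7) ^ (d + 2 + 1) * u 0 := by
        rw [pow_succ (2 / 7 : ℝ) (d + 2)]
        nlinarith
      exact this

/-- the unnormalised numbers -/
noncomputable def aa (d : ℕ) : ℝ := ∏ i ∈ Finset.Icc 1 d, 2 / ((2 : ℝ) ^ i - 1)

theorem two_pow_sub_pos (d : ℕ) : 0 < (2 : ℝ) ^ (d + 1) - 1 := by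
  have : (1 : ℝ) < 2 ^ (d + 1) := one_lt_pow₀ (by norm_num) (by omega)
  linarith

theorem aa_zero : aa 0 = 1 := by simp [aa]

theorem aa_succ (d : ℕ) : aa (d + 1) = aa d * (2 / ((2 : ℝ) ^ (d + 1) - 1)) := by
  unfold aa
  rw [Finset.prod_Icc_succ_top (by omega)]

theorem aa_pos (d : ℕ) : 0 < aa d := by
  induction d with
  | zero => rw [aa_zero]; norm_num
  | succ d ih =>
    rw [aa_succ]
    have := two_pow_sub_pos d
    positivity

theorem aa_rec (d : ℕ) : aa (d + 1) * ((2 : ℝ) ^ (d + 1) - 1) = 2 * aa d := by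
  rw [aa_succ]
  have := (two_pow_sub_pos d).ne'
  field_simp

theorem aa_le (d : ℕ) : aa d ≤ 17 * (2 / 7) ^ d := by
  have := rec_bound aa aa_pos aa_rec d
  rw [aa_zero, mul_one] at this
  exact this

theorem summ (x : ℝ) (hx : |x| ≤ 1) : Summable (fun d => aa d * x ^ d) := by
  have hg : Summable (fun d : ℕ => 17 * (2 / 7 : ℝ) ^ d) :=
    (summable_geometric_of_lt_one (by norm_num) (by norm_num)).mul_left 17
  refine Summable.of_norm_bounded hg (fun d => ?_)
  rw [norm_mul, Real.norm_eq_abs, abs_of_pos (aa_pos d), norm_pow, Real.norm_eq_abs]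
  calc aa d * |x| ^ d ≤ aa d * 1 :=
        mul_le_mul_of_nonneg_left (pow_le_one₀ (abs_nonneg _) hx) (aa_pos d).le
    _ ≤ _ := by rw [mul_one]; exact aa_le d

noncomputable def SS (x : ℝ) : ℝ := ∑' d, aa d * x ^ d

theorem SS_feq (x : ℝ) (hx : |x| ≤ 1) : SS x = (1 + x) * SS (x / 2) := by
  have hx2 : |x / 2| ≤ 1 := by
    rw [abs_div, abs_two]
    linarith [abs_nonneg x]
  have h1 := summ x hx
  have h2 := summ (x / 2) hx2
  unfold SS
  rw [add_mul, one_mul, h1.tsum_eq_zero_add]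
  have h3 : (∑' d, aa d * (x / 2) ^ d) = aa 0 * (x / 2) ^ 0 + ∑' d, aa (d + 1) * (x / 2) ^ (d + 1) :=
    h2.tsum_eq_zero_add
  have h4 : x * (∑' d, aa d * (x / 2) ^ d) = ∑' d, x * (aa d * (x / 2) ^ d) :=
    tsum_mul_left.symm
  rw [h4]
  rw [h3]
  have h5 : Summable (fun d => aa (d + 1) * (x / 2) ^ (d + 1)) :=
    (summable_nat_add_iff 1).2 h2
  have h6 : Summable (fun d => x * (aa d * (x / 2) ^ d)) := h2.mul_left x
  rw [add_assoc, ← h5.tsum_add h6]
  have e0 : aa 0 * x ^ 0 = aa 0 * (x / 2) ^ 0 := by simp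
  rw [e0]
  refine congrArg (fun z => aa 0 * (x / 2) ^ 0 + z) (tsum_congr (fun d => ?_))
  have hr := aa_rec d
  have hp := (two_pow_sub_pos d).ne'
  have e1 : aa d = aa (d + 1) * ((2 : ℝ) ^ (d + 1) - 1) / 2 := by linarith
  rw [e1]
  rw [div_pow, div_pow, pow_succ x d, pow_succ (2 : ℝ) d]
  have h2p : (2 : ℝ) ^ d ≠ 0 := by positivity
  field_simp
  ring

theorem SS_iter (n : ℕ) :
    SS 1 = (∏ j ∈ Finset.range n, (1 + (2 : ℝ)⁻¹ ^ j)) * SS ((2 : ℝ)⁻¹ ^ n) := by
  induction n with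
  | zero => simp
  | succ n ih =>
    rw [ih, Finset.prod_range_succ, mul_assoc]
    congr 1
    have h1 : |(2 : ℝ)⁻¹ ^ n| ≤ 1 := by
      rw [abs_of_pos (by positivity)]
      exact pow_le_one₀ (by norm_num) (by norm_num)
    rw [SS_feq _ h1]
    congr 2

theorem SS_near (x : ℝ) (hx : |x| ≤ 1) : |SS x - 1| ≤ |x| * (SS 1) := by
  have h1 := summ x hx
  have h2 := summ 1 (by simp)
  unfold SS
  rw [h1.tsum_eq_zero_add]
  have e0 : aa 0 * x ^ 0 = 1 := by rw [aa_zero]; simp
  rw [e0, add_sub_cancel_left]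
  have h3 : Summable (fun d => aa (d + 1) * x ^ (d + 1)) := (summable_nat_add_iff 1).2 h1
  have h4 : Summable (fun d => aa (d + 1) * (1 : ℝ) ^ (d + 1)) := (summable_nat_add_iff 1).2 h2
  have h5 : ∑' d, aa (d + 1) * (1 : ℝ) ^ (d + 1) ≤ ∑' d, aa d * (1 : ℝ) ^ d := by
    rw [h2.tsum_eq_zero_add]
    have : 0 ≤ aa 0 * (1 : ℝ) ^ 0 := by rw [aa_zero]; norm_num
    linarith
  have h6 : ‖∑' d, aa (d + 1) * x ^ (d + 1)‖ ≤ ∑' d, |x| * (aa (d + 1) * (1 : ℝ) ^ (d + 1)) := by
    refine tsum_of_norm_bounded (h4.mul_left |x|).hasSum (fun d => ?_)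
    rw [norm_mul, Real.norm_eq_abs, abs_of_pos (aa_pos _), norm_pow, Real.norm_eq_abs, pow_succ,
      one_pow, mul_one]
    have := pow_le_one₀ (n := d) (abs_nonneg x) hx
    have ha := (aa_pos (d + 1)).le
    have hx0 := abs_nonneg x
    nlinarith [mul_nonneg ha hx0]
  rw [tsum_mul_left, Real.norm_eq_abs] at h6
  exact h6.trans (mul_le_mul_of_nonneg_left h5 (abs_nonneg _))

theorem SS_lim : Filter.Tendsto (fun n : ℕ => SS ((2 : ℝ)⁻¹ ^ n)) Filter.atTop (nhds 1) := by
  rw [tendsto_iff_norm_sub_tendsto_zero]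
  have h1 : Filter.Tendsto (fun n : ℕ => (2 : ℝ)⁻¹ ^ n * SS 1) Filter.atTop (nhds (0 * SS 1)) :=
    (tendsto_pow_atTop_nhds_zero_of_lt_one (by norm_num) (by norm_num)).mul_const _
  rw [zero_mul] at h1
  refine squeeze_zero (fun n => norm_nonneg _) (fun n => ?_) h1
  have h2 : |(2 : ℝ)⁻¹ ^ n| ≤ 1 := by
    rw [abs_of_pos (by positivity)]
    exact pow_le_one₀ (by norm_num) (by norm_num)
  have := SS_near _ h2
  rw [abs_of_pos (a := (2 : ℝ)⁻¹ ^ n) (by positivity)] at this
  exact this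

theorem SS_one : SS 1 = ∏' j : ℕ, (1 + (2 : ℝ)⁻¹ ^ j) := by
  have hs : Summable (fun j : ℕ => (2 : ℝ)⁻¹ ^ j) :=
    summable_geometric_of_lt_one (by norm_num) (by norm_num)
  have h1 := (Real.multipliable_one_add_of_summable hs).tendsto_prod_tprod_nat
  have h2 := h1.mul SS_lim
  rw [mul_one] at h2
  have h3 : (fun n : ℕ => (∏ j ∈ Finset.range n, (1 + (2 : ℝ)⁻¹ ^ j)) * SS ((2 : ℝ)⁻¹ ^ n)) =
      fun _ => SS 1 := by
    funext n
    exact (SS_iter n).symm
  rw [h3] at h2
  exact tendsto_nhds_unique tendsto_const_nhds h2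

theorem SS_neg_one : SS (-1) = 0 := by
  rw [SS_feq (-1) (by simp)]
  simp

theorem SS_one_pos : 0 < SS 1 := by
  have h2 := summ 1 (by simp)
  unfold SS
  rw [h2.tsum_eq_zero_add]
  have h3 : 0 ≤ ∑' d, aa (d + 1) * (1 : ℝ) ^ (d + 1) :=
    tsum_nonneg (fun d => by have := (aa_pos (d + 1)).le; positivity)
  have : aa 0 * (1 : ℝ) ^ 0 = 1 := by rw [aa_zero]; norm_num
  linarith

theorem cc_eq (d : ℕ) : cc d = (SS 1)⁻¹ * aa d := by
  unfold cc aa
  rw [SS_one]

theorem halves : HasSum (fun i => aa (2 * i)) (SS 1 / 2) ∧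
    HasSum (fun i => aa (2 * i + 1)) (SS 1 / 2) := by
  have hs : Summable aa := by
    have := summ 1 (by simp)
    simpa using this
  have hE : Summable (fun i => aa (2 * i)) :=
    hs.comp_injective (i := fun i : ℕ => 2 * i) (fun a b h => by simpa using h)
  have hO : Summable (fun i => aa (2 * i + 1)) :=
    hs.comp_injective (i := fun i : ℕ => 2 * i + 1) (fun a b h => by simpa using h)
  obtain ⟨E, hE⟩ := hE
  obtain ⟨O, hO⟩ := hO
  have h1 : HasSum aa (E + O) := HasSum.even_add_odd hE hO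
  have h2 : HasSum (fun d => aa d * (-1 : ℝ) ^ d) (E + -O) := by
    refine HasSum.even_add_odd ?_ ?_
    · simpa [pow_mul] using hE
    · have : (fun i => aa (2 * i + 1) * (-1 : ℝ) ^ (2 * i + 1)) = fun i => -aa (2 * i + 1) := by
        funext i
        rw [pow_succ, pow_mul]
        norm_num
      rw [this]
      exact hO.neg
  have e1 : SS 1 = E + O := by
    unfold SS
    simp only [one_pow, mul_one]
    exact h1.tsum_eq
  have e2 : SS (-1) = E + -O := h2.tsum_eq
  rw [SS_neg_one] at e2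
  have hEO : E = O := by linarith
  have hE' : SS 1 / 2 = E := by rw [e1, hEO]; ring
  have hO' : SS 1 / 2 = O := by rw [e1, hEO]; ring
  exact ⟨by rw [hE']; exact hE, by rw [hO']; exact hO⟩

theorem qs : S_QS := by
  have hP := SS_one_pos
  refine ⟨fun d => ?_, fun d => ?_, ?_, ?_⟩
  · rw [cc_eq]
    have := aa_pos d
    positivity
  · rw [cc_eq, cc_eq, mul_assoc, aa_rec]
    ring
  · have h := (halves.1).mul_left (SS 1)⁻¹
    have e : (SS 1)⁻¹ * (SS 1 / 2) = 1 / 2 := by field_simp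
    rw [e] at h
    simpa only [cc_eq] using h
  · have h := (halves.2).mul_left (SS 1)⁻¹
    have e : (SS 1)⁻¹ * (SS 1 / 2) = 1 / 2 := by field_simp
    rw [e] at h
    simpa only [cc_eq] using h

theorem mcc (hqs : S_QS) : S_MCC := by
  obtain ⟨hpos, hrec, hev, hod⟩ := hqs
  -- summability
  have hb := rec_bound cc hpos hrec
  have hs1 : Summable cc := by
    have hg : Summable (fun d : ℕ => 17 * (2 / 7 : ℝ) ^ d * cc 0) :=
      ((summable_geometric_of_lt_one (by norm_num) (by norm_num)).mul_left 17).mul_right _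
    refine Summable.of_norm_bounded hg (fun d => ?_)
    rw [Real.norm_eq_abs, abs_of_pos (hpos d)]
    exact hb d
  have hs2 : Summable (fun d => cc d * 2 ^ d) := by
    have hg : Summable (fun d : ℕ => 17 * (4 / 7 : ℝ) ^ d * cc 0) :=
      ((summable_geometric_of_lt_one (by norm_num) (by norm_num)).mul_left 17).mul_right _
    refine Summable.of_norm_bounded hg (fun d => ?_)
    have := hpos d
    rw [Real.norm_eq_abs, abs_of_pos (by positivity)]
    calc cc d * 2 ^ d ≤ 17 * (2 / 7) ^ d * cc 0 * 2 ^ d :=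
          mul_le_mul_of_nonneg_right (hb d) (by positivity)
      _ = 17 * ((2 / 7) ^ d * 2 ^ d) * cc 0 := by ring
      _ = _ := by rw [← mul_pow]; norm_num
  obtain ⟨K, hK⟩ := hs2
  have hK0 : 0 ≤ K := hK.nonneg (fun d => by have := (hpos d).le; positivity)
  refine ⟨2 * (K + 1), by positivity, fun d₁ h h0 hst => ?_⟩
  have hp1 : ∀ d : ℕ, (2 : ℝ)⁻¹ ^ d ≤ 1 := fun d => pow_le_one₀ (by norm_num) (by norm_num)
  have hp0 : ∀ d : ℕ, 0 < (2 : ℝ)⁻¹ ^ d := fun d => by positivity
  have hp2 : ∀ d : ℕ, (2 : ℝ)⁻¹ ^ d * 2 ^ d = 1 := fun d => by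
    rw [← mul_pow]; norm_num
  -- (0) bounds
  have hbd : ∀ t d, 0 ≤ h t d ∧ h t d ≤ 1 := by
    intro t
    induction t with
    | zero =>
      intro d
      rw [h0]
      split_ifs <;> norm_num
    | succ t ih =>
      intro d
      rw [hst]
      have h1 := ih (d + 1)
      have h2 := ih (d - 1)
      have h3 := hp1 d
      have h4 := (hp0 d).le
      constructor
      · have := mul_nonneg h4 h1.1
        have := mul_nonneg (sub_nonneg.2 h3) h2.1
        linarith
      · have := mul_le_mul_of_nonneg_left h1.2 h4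
        have := mul_le_mul_of_nonneg_left h2.2 (sub_nonneg.2 h3)
        linarith
  -- parity
  have hpar : ∀ t d, (d + t + d₁) % 2 ≠ 0 → h t d = 0 := by
    intro t
    induction t with
    | zero =>
      intro d hd
      rw [h0]
      rw [if_neg]
      intro e
      apply hd
      omega
    | succ t ih =>
      intro d hd
      rw [hst]
      rw [ih (d + 1) (by omega)]
      rcases d with _ | d
      · simp
      · rw [ih (d + 1 - 1) (by omega)]
        ring
  -- (a) differences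
  have hdiff : ∀ t d, |h t (d + 2) - h t d| ≤ (2 : ℝ)⁻¹ ^ t * (3 * 2 ^ d) := by
    intro t
    induction t with
    | zero =>
      intro d
      have h1 := hbd 0 (d + 2)
      have h2 := hbd 0 d
      have h3 : (1 : ℝ) ≤ 2 ^ d := one_le_pow₀ (by norm_num)
      rw [pow_zero, one_mul, abs_le]
      constructor <;> linarith [h1.1, h1.2, h2.1, h2.2]
    | succ t ih =>
      intro d
      rcases d with _ | d
      · have e : h (t + 1) (0 + 2) - h (t + 1) 0 =
            (2 : ℝ)⁻¹ ^ 2 * (h t (1 + 2) - h t 1) := by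
          rw [hst, hst]
          norm_num
          ring
        have h1 := ih 1
        rw [e, abs_mul, abs_of_pos (hp0 2), pow_succ]
        calc (2 : ℝ)⁻¹ ^ 2 * |h t (1 + 2) - h t 1| ≤ (2 : ℝ)⁻¹ ^ 2 * ((2 : ℝ)⁻¹ ^ t * (3 * 2 ^ 1)) :=
              mul_le_mul_of_nonneg_left h1 (hp0 2).le
          _ = (2 : ℝ)⁻¹ ^ t * 2⁻¹ * (3 * 2 ^ 0) := by ring
      · have e : h (t + 1) (d + 1 + 2) - h (t + 1) (d + 1) =
            (2 : ℝ)⁻¹ ^ (d + 3) * (h t (d + 2 + 2) - h t (d + 2)) +
              (1 - (2 : ℝ)⁻¹ ^ (d + 1)) * (h t (d + 2) - h t d) := by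
          rw [hst, hst]
          have e1 : d + 1 + 2 - 1 = d + 2 := by omega
          have e2 : d + 1 - 1 = d := by omega
          have e3 : d + 1 + 2 = d + 3 := by omega
          have e4 : d + 1 + 2 + 1 = d + 2 + 2 := by omega
          have e5 : d + 1 + 1 = d + 2 := by omega
          rw [e1, e2, e4, e5, e3]
          ring
        have h1 := ih (d + 2)
        have h2 := ih d
        have h3 := sub_nonneg.2 (hp1 (d + 1))
        rw [e]
        refine (abs_add_le _ _).trans ?_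
        rw [abs_mul, abs_mul, abs_of_pos (hp0 (d + 3)), abs_of_nonneg h3]
        calc (2 : ℝ)⁻¹ ^ (d + 3) * |h t (d + 2 + 2) - h t (d + 2)| +
              (1 - (2 : ℝ)⁻¹ ^ (d + 1)) * |h t (d + 2) - h t d| ≤
              (2 : ℝ)⁻¹ ^ (d + 3) * ((2 : ℝ)⁻¹ ^ t * (3 * 2 ^ (d + 2))) +
              (1 - (2 : ℝ)⁻¹ ^ (d + 1)) * ((2 : ℝ)⁻¹ ^ t * (3 * 2 ^ d)) :=
              add_le_add (mul_le_mul_of_nonneg_left h1 (hp0 _).le)
                (mul_le_mul_of_nonneg_left h2 h3)
          _ = (2 : ℝ)⁻¹ ^ t * (3 * 2 ^ d) +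
              (2 : ℝ)⁻¹ ^ t * 3 * ((2 : ℝ)⁻¹ ^ d * 2 ^ d) * (1 / 2 - 1 / 2) := by ring
          _ = (2 : ℝ)⁻¹ ^ (t + 1) * (3 * 2 ^ (d + 1)) := by ring
  have htel : ∀ t d k, |h t (d + 2 * k) - h t d| ≤ (2 : ℝ)⁻¹ ^ t * (2 ^ (d + 2 * k) - 2 ^ d) := by
    intro t d k
    induction k with
    | zero => simp
    | succ k ih =>
      have h1 := hdiff t (d + 2 * k)
      have e : h t (d + 2 * (k + 1)) - h t d =
          (h t (d + 2 * k + 2) - h t (d + 2 * k)) + (h t (d + 2 * k) - h t d) := by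
        have : d + 2 * (k + 1) = d + 2 * k + 2 := by ring
        rw [this]
        ring
      rw [e]
      refine (abs_add_le _ _).trans ((add_le_add h1 ih).trans (le_of_eq ?_))
      have : d + 2 * (k + 1) = d + 2 * k + 2 := by ring
      rw [this, pow_add (2 : ℝ) (d + 2 * k) 2]
      ring
  have hcmp : ∀ t d d', d % 2 = d' % 2 → |h t d - h t d'| ≤ (2 : ℝ)⁻¹ ^ t * (2 ^ d + 2 ^ d') := by
    intro t d d' hdd
    have q1 : (0 : ℝ) < 2 ^ d := by positivity
    have q2 : (0 : ℝ) < 2 ^ d' := by positivity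
    rcases le_total d d' with hle | hle
    · obtain ⟨k, hk⟩ : ∃ k, d' = d + 2 * k := ⟨(d' - d) / 2, by omega⟩
      have := htel t d k
      rw [← hk, abs_sub_comm] at this
      refine this.trans (mul_le_mul_of_nonneg_left ?_ (hp0 t).le)
      linarith
    · obtain ⟨k, hk⟩ : ∃ k, d = d' + 2 * k := ⟨(d - d') / 2, by omega⟩
      have := htel t d' k
      rw [← hk] at this
      refine this.trans (mul_le_mul_of_nonneg_left ?_ (hp0 t).le)
      linarith
  -- (b) stationarity
  have hsumm : ∀ t (g : ℕ → ℝ), (∀ d, |g d| ≤ 1) → Summable (fun d => cc d * (g d * h t d)) := by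
    intro t g hg
    refine Summable.of_norm_bounded hs1 (fun d => ?_)
    rw [norm_mul, norm_mul, Real.norm_eq_abs, Real.norm_eq_abs, Real.norm_eq_abs,
      abs_of_pos (hpos d), abs_of_nonneg (hbd t d).1]
    calc cc d * (|g d| * h t d) ≤ cc d * (1 * 1) := by
          refine mul_le_mul_of_nonneg_left ?_ (hpos d).le
          exact mul_le_mul (hg d) (hbd t d).2 (hbd t d).1 (by norm_num)
      _ = cc d := by ring
  have hbal : ∀ d, cc (d + 1) * (1 - (2 : ℝ)⁻¹ ^ (d + 1)) = cc d * (2 : ℝ)⁻¹ ^ d := by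
    intro d
    have h1 := hrec d
    have h2 := hp2 (d + 1)
    have h3 : cc (d + 1) * (1 - (2 : ℝ)⁻¹ ^ (d + 1)) =
        (2 : ℝ)⁻¹ ^ (d + 1) * (cc (d + 1) * ((2 : ℝ) ^ (d + 1) - 1)) := by
      calc cc (d + 1) * (1 - (2 : ℝ)⁻¹ ^ (d + 1)) =
          cc (d + 1) * ((2 : ℝ)⁻¹ ^ (d + 1) * 2 ^ (d + 1) - (2 : ℝ)⁻¹ ^ (d + 1)) := by rw [h2]
        _ = _ := by ring
    rw [h3, h1, pow_succ]
    ring
  have hstat : ∀ t, ∑' d, cc d * h (t + 1) d = ∑' d, cc d * h t d := by
    intro t
    have g1 : ∀ d : ℕ, |(2 : ℝ)⁻¹ ^ d| ≤ 1 := fun d => by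
      rw [abs_of_pos (hp0 d)]; exact hp1 d
    have g2 : ∀ d : ℕ, |1 - (2 : ℝ)⁻¹ ^ d| ≤ 1 := fun d => by
      rw [abs_of_nonneg (sub_nonneg.2 (hp1 d))]; linarith [hp0 d]
    have s1 := hsumm t _ g1
    have s2 := hsumm t _ g2
    -- the two parts of the sum
    have u1 : (fun d => cc d * ((2 : ℝ)⁻¹ ^ d * h t (d + 1))) =
        fun d => cc (d + 1) * ((1 - (2 : ℝ)⁻¹ ^ (d + 1)) * h t (d + 1)) := by
      funext d
      rw [← mul_assoc, ← mul_assoc, hbal]
    have s1' : Summable (fun d => cc d * ((2 : ℝ)⁻¹ ^ d * h t (d + 1))) := by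
      rw [u1]
      exact (summable_nat_add_iff 1).2 s2
    have v1 : ∑' d, cc d * ((2 : ℝ)⁻¹ ^ d * h t (d + 1)) =
        ∑' d, cc d * ((1 - (2 : ℝ)⁻¹ ^ d) * h t d) := by
      rw [u1, s2.tsum_eq_zero_add]
      norm_num
    have u2 : (fun d => cc (d + 1) * ((1 - (2 : ℝ)⁻¹ ^ (d + 1)) * h t (d + 1 - 1))) =
        fun d => cc d * ((2 : ℝ)⁻¹ ^ d * h t d) := by
      funext d
      rw [← mul_assoc, hbal, Nat.add_sub_cancel, mul_assoc]
    have s2' : Summable (fun d => cc d * ((1 - (2 : ℝ)⁻¹ ^ d) * h t (d - 1))) := by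
      refine (summable_nat_add_iff 1).1 ?_
      show Summable (fun d => cc (d + 1) * ((1 - (2 : ℝ)⁻¹ ^ (d + 1)) * h t (d + 1 - 1)))
      rw [u2]
      exact s1
    have v2 : ∑' d, cc d * ((1 - (2 : ℝ)⁻¹ ^ d) * h t (d - 1)) =
        ∑' d, cc d * ((2 : ℝ)⁻¹ ^ d * h t d) := by
      rw [s2'.tsum_eq_zero_add, u2]
      norm_num
    calc ∑' d, cc d * h (t + 1) d = ∑' d, (cc d * ((2 : ℝ)⁻¹ ^ d * h t (d + 1)) +
          cc d * ((1 - (2 : ℝ)⁻¹ ^ d) * h t (d - 1))) := by
          refine tsum_congr (fun d => ?_)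
          rw [hst]
          ring
      _ = (∑' d, cc d * ((1 - (2 : ℝ)⁻¹ ^ d) * h t d)) + ∑' d, cc d * ((2 : ℝ)⁻¹ ^ d * h t d) := by
          rw [s1'.tsum_add s2', v1, v2]
      _ = ∑' d, cc d * h t d := by
          rw [← s2.tsum_add s1]
          refine tsum_congr (fun d => ?_)
          ring
  have hF : ∀ t, ∑' d, cc d * h t d = cc d₁ := by
    intro t
    induction t with
    | zero =>
      rw [tsum_eq_single d₁]
      · rw [h0, if_pos rfl, mul_one]
      · intro d hd
        rw [h0, if_neg hd, mul_zero]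
    | succ t ih => rw [hstat, ih]
  -- conclusion
  intro t d₀
  split_ifs with hd
  · -- the weights
    have hE : ∀ r : ℕ, HasSum (fun d => if d % 2 = r % 2 then cc d else 0) (1 / 2) := by
      intro r
      rcases Nat.mod_two_eq_zero_or_one r with hr | hr
      · have : HasSum (fun d => if d % 2 = r % 2 then cc d else 0) (1 / 2 + 0) := by
          refine HasSum.even_add_odd ?_ ?_
          · have e : (fun k => if 2 * k % 2 = r % 2 then cc (2 * k) else 0) =
                fun k => cc (2 * k) := by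
              funext k
              rw [if_pos (by omega)]
            rw [e]
            exact hev
          · have e : (fun k => if (2 * k + 1) % 2 = r % 2 then cc (2 * k + 1) else 0) =
                fun _ => (0 : ℝ) := by
              funext k
              rw [if_neg (by omega)]
            rw [e]
            exact hasSum_zero
        simpa using this
      · have : HasSum (fun d => if d % 2 = r % 2 then cc d else 0) (0 + 1 / 2) := by
          refine HasSum.even_add_odd ?_ ?_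
          · have e : (fun k => if 2 * k % 2 = r % 2 then cc (2 * k) else 0) =
                fun _ => (0 : ℝ) := by
              funext k
              rw [if_neg (by omega)]
            rw [e]
            exact hasSum_zero
          · have e : (fun k => if (2 * k + 1) % 2 = r % 2 then cc (2 * k + 1) else 0) =
                fun k => cc (2 * k + 1) := by
              funext k
              rw [if_pos (by omega)]
            rw [e]
            exact hod
        simpa using this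
    set w : ℕ → ℝ := fun d => if d % 2 = d₀ % 2 then cc d else 0 with hw
    have hwsum := hE d₀
    have s3 : Summable (fun d => cc d * h t d) := by
      have := hsumm t (fun _ => 1) (by simp)
      simpa using this
    have h1 : HasSum (fun d => w d * (h t d - h t d₀)) (cc d₁ - 1 / 2 * h t d₀) := by
      have a1 : HasSum (fun d => cc d * h t d) (cc d₁) := by
        have := s3.hasSum
        rwa [hF] at this
      have a2 := hwsum.mul_right (h t d₀)
      have a3 := a1.sub a2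
      have e : (fun d => w d * (h t d - h t d₀)) = fun d => cc d * h t d - w d * h t d₀ := by
        funext d
        rw [mul_sub]
        congr 1
        by_cases hpd : d % 2 = d₀ % 2
        · simp only [hw, if_pos hpd]
        · rw [hpar t d (by omega), mul_zero, mul_zero]
      rw [e]
      exact a3
    have h2 : HasSum (fun d => (2 : ℝ)⁻¹ ^ t * (cc d * 2 ^ d + w d * 2 ^ d₀))
        ((2 : ℝ)⁻¹ ^ t * (K + 1 / 2 * 2 ^ d₀)) :=
      (hK.add (hwsum.mul_right _)).mul_left _
    have h3 : ‖∑' d, w d * (h t d - h t d₀)‖ ≤ (2 : ℝ)⁻¹ ^ t * (K + 1 / 2 * 2 ^ d₀) := by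
      refine tsum_of_norm_bounded h2 (fun d => ?_)
      by_cases hpd : d % 2 = d₀ % 2
      · have e : w d = cc d := by simp only [hw, if_pos hpd]
        rw [e, norm_mul, Real.norm_eq_abs, Real.norm_eq_abs, abs_of_pos (hpos d)]
        calc cc d * |h t d - h t d₀| ≤ cc d * ((2 : ℝ)⁻¹ ^ t * (2 ^ d + 2 ^ d₀)) :=
              mul_le_mul_of_nonneg_left (hcmp t d d₀ hpd) (hpos d).le
          _ = _ := by ring
      · have e : w d = 0 := by simp only [hw, if_neg hpd]
        rw [e, zero_mul, norm_zero]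
        have := (hpos d).le
        positivity
    rw [h1.tsum_eq, Real.norm_eq_abs] at h3
    have h4 : h t d₀ - 2 * cc d₁ = -2 * (cc d₁ - 1 / 2 * h t d₀) := by ring
    rw [h4, abs_mul]
    have h5 : |(-2 : ℝ)| = 2 := by norm_num
    rw [h5]
    have h6 : (1 : ℝ) ≤ 2 ^ d₀ := one_le_pow₀ (by norm_num)
    calc 2 * |cc d₁ - 1 / 2 * h t d₀| ≤ 2 * ((2 : ℝ)⁻¹ ^ t * (K + 1 / 2 * 2 ^ d₀)) := by linarith
      _ ≤ 2 * ((2 : ℝ)⁻¹ ^ t * (K * 2 ^ d₀ + 1 * 2 ^ d₀)) := by
          refine mul_le_mul_of_nonneg_left (mul_le_mul_of_nonneg_left ?_ (hp0 t).le) (by norm_num)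
          nlinarith
      _ = 2 * (K + 1) * 2 ^ d₀ * (2 : ℝ)⁻¹ ^ t := by ring
  · rw [hpar t d₀ hd, sub_zero, abs_zero]
    positivity

end Pool.Agent.Run7.h799.DI
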